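import Pool.Agent.H94.FJ.M15

/-!
# The functionals on `K₁(ℤ_[p][G])`
-/

set_option autoImplicit false
set_option linter.unusedSectionVars false
set_option linter.unusedSimpArgs false

open Matrix Filter
open scoped Classical

universe u v w

namespace Pool.Agent.H71.KP

open Pool.Agent.H71.WH (emb emb_apply unitExt unitExt_val emb_comp emb_map blockOne_eq InvMat K1 K1.mk K1.unit K1Rel genK1 addOne oneByOne blockOne CycSub conjHom K1.mk_mul K1.unit_mul emb_zero_left)

variable {p : ℕ} [hp : Fact p.Prime] {G : Type u} [Group G] (f : G → ℤ_[p])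
  (hf : ∀ x y, f (x * y) = f (y * x))

/-- the values on the stabilisations -/
noncomputable def gfun {n : ℕ} (x : (MG p G n)ˣ) (N : ℕ) : ℚ_[p] :=
  if h : n ≤ N then Gam p f hf N (stU h x) else 0

/-- the germ of the values -/
noncomputable def GG {n : ℕ} (x : (MG p G n)ˣ) : Germ (atTop : Filter ℕ) ℚ_[p] :=
  (gfun f hf x : ℕ → ℚ_[p])

theorem GG_mul {n : ℕ} (x y : (MG p G n)ˣ) : GG f hf (x * y) = GG f hf x + GG f hf y := by
  rw [GG, GG, GG, ← Germ.coe_add]
  refine Germ.coe_eq.2 ?_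
  filter_upwards [eventually_ge_atTop n] with N hN
  rw [Pi.add_apply, gfun, gfun, gfun, dif_pos hN, dif_pos hN, dif_pos hN, map_mul, Gam_mul]

theorem GG_addOne {n : ℕ} (x : (MG p G n)ˣ) : GG f hf (addOne x) = GG f hf x := by
  rw [GG, GG]
  refine Germ.coe_eq.2 ?_
  filter_upwards [eventually_ge_atTop (n + 1)] with N hN
  rw [gfun, gfun, dif_pos hN, dif_pos ((Nat.le_succ n).trans hN), stU_addOne]

/-- the functional on the free abelian group -/
noncomputable def GamFree : FreeAbelianGroup (InvMat (MonoidAlgebra ℤ_[p] G)) →+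
    Germ (atTop : Filter ℕ) ℚ_[p] := FreeAbelianGroup.lift fun a => GG f hf a.mat

theorem GamFree_le : K1Rel (MonoidAlgebra ℤ_[p] G) ≤ (GamFree f hf).ker := by
  rw [K1Rel, AddSubgroup.closure_le]
  rintro z (⟨n, x, y, rfl⟩ | ⟨n, x, rfl⟩)
  · change GamFree f hf (genK1 (x * y) - (genK1 x + genK1 y)) = 0
    rw [GamFree, map_sub, map_add, genK1, genK1, genK1, FreeAbelianGroup.lift_apply_of,
      FreeAbelianGroup.lift_apply_of, FreeAbelianGroup.lift_apply_of]
    exact sub_eq_zero.2 (GG_mul f hf x y)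
  · change GamFree f hf (genK1 (addOne x) - genK1 x) = 0
    rw [GamFree, map_sub, genK1, genK1, FreeAbelianGroup.lift_apply_of,
      FreeAbelianGroup.lift_apply_of]
    exact sub_eq_zero.2 (GG_addOne f hf x)

/-- the functional on `K₁` -/
noncomputable def GamK1 : K1 (MonoidAlgebra ℤ_[p] G) →+ Germ (atTop : Filter ℕ) ℚ_[p] :=
  QuotientAddGroup.lift (K1Rel _) (GamFree f hf) (GamFree_le f hf)

theorem GamK1_mk {n : ℕ} (x : (MG p G n)ˣ) : GamK1 f hf (K1.mk x) = GG f hf x :=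
  FreeAbelianGroup.lift_apply_of _ _

/-- the stabilisation of a unit -/
noncomputable def sU {A : Type u} [Ring A] {N : ℕ} (h : 1 ≤ N) : Aˣ →* (Matrix (Fin N) (Fin N) A)ˣ :=
  (stU h).comp (Units.map (scalar (Fin 1)).toMonoidHom)

theorem GamK1_unit (x : (MonoidAlgebra ℤ_[p] G)ˣ) (a : ℚ_[p])
    (h : ∀ (N : ℕ) (hN : 1 ≤ N), Gam p f hf N (sU hN x) = a) :
    GamK1 f hf (K1.unit x) = (a : Germ (atTop : Filter ℕ) ℚ_[p]) := by
  rw [K1.unit, GamK1_mk, GG]
  refine Germ.coe_eq.2 ?_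
  filter_upwards [eventually_ge_atTop 1] with N hN
  rw [gfun, dif_pos hN]
  exact h N hN

section Map

variable {H : Type v} [Group H] (φ : H →* G)

theorem sU_map {N : ℕ} (h : 1 ≤ N) (x : (MonoidAlgebra ℤ_[p] H)ˣ) :
    Units.map (glA p φ N : MG p H N →* MG p G N) (sU h x) = sU h (unitsMap φ x) := by
  have h1 := mapGL_stU (MonoidAlgebra.mapDomainRingHom ℤ_[p] φ) h (oneByOne x)
  rw [mapGL_oneByOne] at h1
  exact h1

theorem Gam_sU_map (f' : H → ℤ_[p]) (hf' : ∀ x y, f' (x * y) = f' (y * x))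
    (h : ∀ x, f (φ x) = f' x) {N : ℕ} (hN : 1 ≤ N) (x : (MonoidAlgebra ℤ_[p] H)ˣ) :
    Gam p f hf N (sU hN (unitsMap φ x)) = Gam p f' hf' N (sU hN x) := by
  rw [← sU_map, Gam_map p φ N f hf f' hf' h]

end Map

theorem Gam_one (N : ℕ) : Gam p f hf N 1 = 0 := by
  have := Gam_mul p f hf (n := N) 1 1
  rw [mul_one] at this
  exact add_eq_left.1 this.symm

theorem Gam_eq_zero_of_pow {N : ℕ} (u : (MG p G N)ˣ) (n : ℕ) (hn : n ≠ 0)
    (h : Gam p f hf N (u ^ n) = 0) : Gam p f hf N u = 0 := by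
  rw [Gam_pow] at h
  rcases mul_eq_zero.1 h with h | h
  · exact absurd (by exact_mod_cast h) hn
  · exact h

/-- The functional vanishes on the elements of `G`. -/
theorem Gam_gUnit (hfin : ∀ g, f g ≠ 0 → IsOfFinOrder g) (g : G) {N : ℕ} (hN : 1 ≤ N) :
    Gam p f hf N (sU hN (gUnit g)) = 0 := by
  by_cases hg : IsOfFinOrder g
  · obtain ⟨n, hn, h1⟩ := isOfFinOrder_iff_pow_eq_one.1 hg
    apply Gam_eq_zero_of_pow f hf _ n hn.ne'
    have h2 : (gUnit g : (MonoidAlgebra ℤ_[p] G)ˣ) ^ n = 1 := by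
      rw [gUnit, ← map_pow, ← map_pow, h1, map_one, map_one]
    rw [← map_pow, h2, map_one, Gam_one]
  · let φ : Multiplicative ℤ →* G := zpowersHom G g
    have hφ : ∀ m : Multiplicative ℤ, φ m = g ^ (Multiplicative.toAdd m) := fun m => rfl
    let q : Multiplicative ℤ → ℤ_[p] := fun m => if m = 1 then f 1 else 0
    have hq : ∀ x y, q (x * y) = q (y * x) := fun x y => by rw [mul_comm]
    have h1 : ∀ m, f (φ m) = q m := by
      intro m
      by_cases hm : m = 1
      · rw [hm, map_one]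
        exact (if_pos rfl).symm
      · have h2 : q m = 0 := if_neg hm
        rw [h2]
        by_contra h3
        have h4 := hfin _ h3
        rw [hφ] at h4
        apply hg
        have h5 : Multiplicative.toAdd m ≠ 0 := fun h => hm (by
          rw [← ofAdd_toAdd m, h]; rfl)
        obtain ⟨n, hn, h6⟩ := isOfFinOrder_iff_pow_eq_one.1 h4
        rw [← _root_.zpow_natCast, ← _root_.zpow_mul] at h6
        exact isOfFinOrder_iff_zpow_eq_one.2 ⟨_, mul_ne_zero h5 (by exact_mod_cast hn.ne'), h6⟩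
    let t : Multiplicative ℤ := Multiplicative.ofAdd 1
    have h2 : (gUnit g : (MonoidAlgebra ℤ_[p] G)ˣ) = unitsMap φ (gUnit t) := by
      apply Units.ext
      change MonoidAlgebra.single g (1 : ℤ_[p]) =
        MonoidAlgebra.mapDomain φ (MonoidAlgebra.single t 1)
      rw [MonoidAlgebra.mapDomain_single]
      congr 1
      change g = g ^ (1 : ℤ)
      rw [_root_.zpow_one]
    rw [h2, Gam_sU_map f hf φ q hq h1]
    let ψ : Multiplicative ℤ →* Multiplicative ℤ := powMonoidHom 2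
    have h3 : ∀ m, q (ψ m) = q m := by
      intro m
      change (if m ^ 2 = 1 then f 1 else 0) = if m = 1 then f 1 else 0
      have : m ^ 2 = 1 ↔ m = 1 := by
        constructor
        · intro h
          have h' : 2 • Multiplicative.toAdd m = 0 := h
          have h'' : Multiplicative.toAdd m = 0 := by
            rw [nsmul_eq_mul] at h'
            push_cast at h'
            omega
          rw [← ofAdd_toAdd m, h'']
          rfl
        · rintro rfl
          rw [one_pow]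
      simp only [this]
    have h4 := Gam_sU_map q hq ψ q hq h3 hN (gUnit t)
    have h5 : unitsMap ψ (gUnit t : (MonoidAlgebra ℤ_[p] (Multiplicative ℤ))ˣ) = gUnit t ^ 2 := by
      apply Units.ext
      change MonoidAlgebra.mapDomain ψ (MonoidAlgebra.single t (1 : ℤ_[p])) =
        (MonoidAlgebra.single t (1 : ℤ_[p])) ^ 2
      rw [MonoidAlgebra.mapDomain_single, MonoidAlgebra.single_pow, one_pow]
      rfl
    rw [h5, map_pow, Gam_pow] at h4
    have h6 : ((2 : ℕ) : ℚ_[p]) * Gam p q hq N (sU hN (gUnit t)) -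
        Gam p q hq N (sU hN (gUnit t)) = 0 := sub_eq_zero.2 h4
    have h7 : Gam p q hq N (sU hN (gUnit t)) = ((2 : ℕ) : ℚ_[p]) * Gam p q hq N (sU hN (gUnit t)) -
        Gam p q hq N (sU hN (gUnit t)) := by
      push_cast
      ring
    rw [h7, h6]

theorem Gam_trivial (hfin : ∀ g, f g ≠ 0 → IsOfFinOrder g) (x : (MonoidAlgebra ℤ_[p] G)ˣ)
    (hx : x ∈ trivialUnits ℤ_[p] G) {N : ℕ} (hN : 1 ≤ N) : Gam p f hf N (sU hN x) = 0 := by
  obtain ⟨g, e, he, hx⟩ := hx
  apply Gam_eq_zero_of_pow f hf _ 2 two_ne_zero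
  have h1 : x ^ 2 = gUnit (g ^ 2) := by
    apply Units.ext
    rw [Units.val_pow_eq_pow_val, hx, MonoidAlgebra.single_pow]
    change _ = MonoidAlgebra.single (g ^ 2) (1 : ℤ_[p])
    rcases he with rfl | rfl <;> simp
  rw [← map_pow, h1, Gam_gUnit f hf hfin]

theorem GamK1_le (hfin : ∀ g, f g ≠ 0 → IsOfFinOrder g) :
    trivialK1 ℤ_[p] G ≤ (GamK1 f hf).ker := by
  rw [trivialK1, AddSubgroup.closure_le]
  rintro z ⟨x, hx, rfl⟩
  change GamK1 f hf (K1.unit x) = 0
  rw [GamK1_unit f hf x 0 (fun N hN => Gam_trivial f hf hfin x hx hN)]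
  rfl

/-- the functional on `Wh` -/
noncomputable def GamWh (hfin : ∀ g, f g ≠ 0 → IsOfFinOrder g) :
    Wh ℤ_[p] G →+ Germ (atTop : Filter ℕ) ℚ_[p] :=
  QuotientAddGroup.lift (trivialK1 ℤ_[p] G) (GamK1 f hf) (GamK1_le f hf hfin)

/-- the non-unital homomorphism given by the first matrix entry -/
noncomputable def jj (p : ℕ) [Fact p.Prime] (G : Type u) [Group G] {N : ℕ} (h : 1 ≤ N) :
    MonoidAlgebra ℤ_[p] G →ₙ+* MG p G N :=
  NonUnitalRingHom.comp (emb (R := MonoidAlgebra ℤ_[p] G) (Fin.castLEEmb h))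
    (scalar (Fin 1) : MonoidAlgebra ℤ_[p] G →+* MG p G 1).toNonUnitalRingHom

theorem sU_val {N : ℕ} (h : 1 ≤ N) (x : (MonoidAlgebra ℤ_[p] G)ˣ) :
    (sU h x : MG p G N) = jj p G h (x : MonoidAlgebra ℤ_[p] G) + (1 - jj p G h 1) := rfl

theorem sU_val' {N : ℕ} (h : 1 ≤ N) (x : (MonoidAlgebra ℤ_[p] G)ˣ) :
    (sU h x : MG p G N) = 1 + jj p G h ((x : MonoidAlgebra ℤ_[p] G) - 1) := by
  rw [sU_val, map_sub]
  abel

theorem trA_jj {N : ℕ} (h : 1 ≤ N) (x : MonoidAlgebra ℤ_[p] G) :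
    trA p f N (jj p G h x) = fnA f x := by
  change trf p f N (jj p G h x) = fn f x
  rw [trf_apply]
  obtain ⟨M, rfl⟩ : ∃ M, N = M + 1 := ⟨N - 1, by omega⟩
  rw [Finset.sum_eq_single (Fin.castLEEmb h 0)]
  · congr 1
    have h1 := emb_apply (R := MonoidAlgebra ℤ_[p] G) (Fin.castLEEmb h)
      (scalar (Fin 1) x : MG p G 1) 0 0
    refine Eq.trans h1 ?_
    exact Matrix.diagonal_apply_eq (fun _ : Fin 1 => x) 0
  · intro i _ hi
    have : jj p G h x i i = 0 := by
      refine emb_zero_left (R := MonoidAlgebra ℤ_[p] G) (Fin.castLEEmb h)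
        (scalar (Fin 1) x : MG p G 1) ?_ i
      intro j hj
      apply hi
      rw [hj]
      congr 1
      exact Subsingleton.elim _ _
    rw [this, map_zero]
  · intro hh
    exact absurd (Finset.mem_univ _) hh

theorem jj_natCast {N : ℕ} (h : 1 ≤ N) (m : ℕ) (x : MonoidAlgebra ℤ_[p] G) :
    jj p G h ((m : MonoidAlgebra ℤ_[p] G) * x) = (m : MG p G N) * jj p G h x := by
  induction m with
  | zero => simp
  | succ m ih => rw [Nat.cast_succ, add_mul, one_mul, map_add, ih, Nat.cast_succ, add_mul, one_mul]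

/-- The values of the functional on the units of `ℤ_[p][C]`. -/
theorem Gam_sU_eq {C : Type v} [Group C] [Finite C] (h : C → ℤ_[p])
    (hh : ∀ x y, h (x * y) = h (y * x)) {N : ℕ} (hN : 1 ≤ N) (x : (MonoidAlgebra ℤ_[p] C)ˣ) :
    Gam p h hh N (sU hN x) = LU h x - (p : ℚ_[p])⁻¹ * LU (fun a => h (a ^ p)) x := by
  have hp0 : (p : ℚ_[p]) ≠ 0 := by exact_mod_cast hp.out.ne_zero
  have hm : (NP p C : ℚ_[p]) ≠ 0 := by exact_mod_cast NP_ne_zero
  obtain ⟨y, hy⟩ := (C3_pow_NP x).sq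
  have h1 : (sU hN (x ^ NP p C) : MG p C N) = 1 + ((p ^ 2 : ℕ) : MG p C N) * jj p C hN y := by
    rw [sU_val', hy, add_sub_cancel_left, jj_natCast]
  have h2 := Gam_sq p h hh h1
  have h3 : ∀ g : C → ℤ_[p], L (trA p g N) (sU hN (x ^ NP p C) : MG p C N) =
      L (fnA g) ((x ^ NP p C : (MonoidAlgebra ℤ_[p] C)ˣ) : MonoidAlgebra ℤ_[p] C) := by
    intro g
    rw [sU_val', L_one_add, L]
    exact tl_nonUnital (jj p C hN) (fnA g) (trA p g N) (fun y => trA_jj g hN y) _
  rw [h3, h3, map_pow, Gam_pow] at h2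
  rw [LU, LU]
  field_simp
  linear_combination h2

theorem GamWh_incWh (hfin : ∀ g, f g ≠ 0 → IsOfFinOrder g) (C : CycSub G)
    (x : (MonoidAlgebra ℤ_[p] C.1)ˣ) (a : ℚ_[p])
    (ha : ∀ _ : Finite C.1, a = LU (fun a : C.1 => f a) x -
      (p : ℚ_[p])⁻¹ * LU (fun a : C.1 => f ((a : G) ^ p)) x) :
    GamWh f hf hfin (incWh C x) = (a : Germ (atTop : Filter ℕ) ℚ_[p]) := by
  have := C.2.1
  have hf' : ∀ a b : C.1, f ((a * b : C.1) : G) = f ((b * a : C.1) : G) := fun a b => hf a b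
  refine GamK1_unit f hf _ _ (fun N hN => ?_)
  rw [Gam_sU_map f hf C.1.subtype (fun a : C.1 => f a) hf' (fun a => rfl), Gam_sU_eq, ha this]
  rfl

end Pool.Agent.H71.KP
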