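import Pool.Agent.H94.FJ.M15
import Pool.Agent.H94.FJ.M18

/-!
# The logarithm of the restriction
-/

set_option autoImplicit false
set_option linter.unusedSectionVars false
set_option linter.unusedSimpArgs false

open Matrix
open scoped Classical

universe u v w t

namespace Pool.Agent.H71.KP

variable {p : ℕ} [hp : Fact p.Prime] {H : Type w} [CommGroup H] [Finite H]

theorem tr_resR (E : Subgroup H) [Fintype (H ⧸ E)] (c : E) (x : MonoidAlgebra ℤ_[p] H) :
    fn (dlt p c) (trace (resR ℤ_[p] E x)) = (Nat.card (H ⧸ E) : ℤ_[p]) * fn (dlt p (c : H)) x := by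
  induction x using MonoidAlgebra.induction_linear with
  | zero => simp
  | add x y hx hy => rw [map_add, trace_add, map_add, hx, hy, map_add, mul_add]
  | single h n =>
    rw [fn_single, trace, map_sum]
    have h1 : ∀ q : H ⧸ E, fn (dlt p c) ((resR ℤ_[p] E (MonoidAlgebra.single h n)).diag q) =
        n * dlt p (c : H) h := by
      intro q
      change fn (dlt p c) (resA ℤ_[p] E (MonoidAlgebra.single h n) q q) = _
      rw [resA_single]
      have h2 : q.out⁻¹ * h * q.out = h := by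
        rw [mul_comm, ← mul_assoc, mul_inv_cancel, one_mul]
      by_cases hh : q.out⁻¹ * h * q.out ∈ E
      · rw [dif_pos hh, fn_single]
        congr 1
        unfold dlt
        congr 1
        rw [Subtype.ext_iff]
        change (q.out⁻¹ * h * q.out = (c : H)) = (h = (c : H))
        rw [h2]
      · rw [dif_neg hh, map_zero, dlt, if_neg, mul_zero]
        intro h3
        apply hh
        rw [h2, h3]
        exact c.2
    simp only [h1]
    rw [Finset.sum_const, Finset.card_univ, Nat.card_eq_fintype_card, nsmul_eq_mul]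

theorem det_C3 {B : Type u} [CommRing B] {ι : Type v} [Fintype ι] [DecidableEq ι]
    {W : Matrix ι ι B} (h : C3 p W) : C3 p (det W) := det_cong_nat (p ^ 3) h

theorem LU_resU (E : Subgroup H) [Fintype (H ⧸ E)] (c : E) (x : (MonoidAlgebra ℤ_[p] H)ˣ) :
    LU (dlt p c) (resU E x) = (Nat.card (H ⧸ E) : ℚ_[p]) * LU (dlt p (c : H)) x := by
  have h1 : ((resU E x ^ NP p H : (MonoidAlgebra ℤ_[p] E)ˣ) : MonoidAlgebra ℤ_[p] E) =
      det (resR ℤ_[p] E ((x ^ NP p H : (MonoidAlgebra ℤ_[p] H)ˣ) : MonoidAlgebra ℤ_[p] H)) := by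
    rw [← map_pow, resU_val]
  have h2 : C3 p (resR ℤ_[p] E ((x ^ NP p H : (MonoidAlgebra ℤ_[p] H)ˣ) :
      MonoidAlgebra ℤ_[p] H)) := (C3_pow_NP x).map _
  have h3 : LU (dlt p c) (resU E x) = (NP p H : ℚ_[p])⁻¹ *
      L (fnA (dlt p c)) ((resU E x ^ NP p H : (MonoidAlgebra ℤ_[p] E)ˣ) :
        MonoidAlgebra ℤ_[p] E) :=
    LU_eq (dlt p c) (fun a b => by rw [mul_comm]) _ (NP p H) NP_ne_zero (by
      rw [h1]
      exact det_C3 h2)
  rw [h3, h1, LU]
  have h4 := L_det (fnA (dlt p c)) h2.cong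
  have h5 : L (fnA (dlt p c)) (det (resR ℤ_[p] E ((x ^ NP p H : (MonoidAlgebra ℤ_[p] H)ˣ) :
      MonoidAlgebra ℤ_[p] H))) = (Nat.card (H ⧸ E) : ℚ_[p]) *
      L (fnA (dlt p (c : H))) ((x ^ NP p H : (MonoidAlgebra ℤ_[p] H)ˣ) :
        MonoidAlgebra ℤ_[p] H) := by
    refine h4.trans ?_
    rw [L_map, L, L]
    have h6 := tl_mul_fun (fnA (dlt p (c : H)))
      (pull (resR ℤ_[p] E) (ttr (fnA (dlt p c)) (H ⧸ E)))
      (((x ^ NP p H : (MonoidAlgebra ℤ_[p] H)ˣ) : MonoidAlgebra ℤ_[p] H) - 1)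
      (Nat.card (H ⧸ E) : ℤ_[p]) (by
        intro r
        rw [pull_apply, ttr_apply]
        exact tr_resR E c r)
    rw [h6]
    norm_cast
  rw [h5]
  ring

end Pool.Agent.H71.KP
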